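import Pool.Agent.helper35.FO.Spec

/-!
# Project fo, row HOM
-/

set_option autoImplicit false

namespace Pool.Agent.FO

open Matrix Pool.Agent.H48SL Pool.Agent.UG Pool.Agent.LV

open scoped commutatorElement

theorem HOM_abs (G : Type) [Group G] (c : ℕ → Subgroup G) (hn : ∀ m, (c m).Normal)
    (hfi : ∀ m, m ≠ 0 → (c m).index ≠ 0) (hmono : ∀ m m', m ∣ m' → c m' ≤ c m)
    (hAB : ∀ q, q ≠ 0 → (⁅c q, c q⁆ : Subgroup G).index ≠ 0)
    (H : Subgroup G) (hP : ∀ m, m ≠ 0 → ∀ g : G, ∃ h ∈ H, g⁻¹ * h ∈ c m)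
    (hC : ∀ K : Subgroup G, K ≤ H → K.relIndex H ≠ 0 → ∃ m : ℕ, m ≠ 0 ∧ H ⊓ c m ≤ K)
    (N : Subgroup G) (hN : N ≤ H) (hNi : N.relIndex H ≠ 0) (F : N →* Multiplicative ℤ) (n : N) :
    F n = 1 := by
  classical
  by_contra hF
  obtain ⟨q, hq, hqN⟩ := hC N hN hNi
  have hnq := hn q
  -- replace n by a power in c q
  obtain ⟨n, hF, hnc⟩ : ∃ n : N, F n ≠ 1 ∧ (n : G) ∈ c q := by
    refine ⟨n ^ (c q).index, ?_, ?_⟩
    · rw [map_pow]
      intro h
      have h2 : (c q).index • Multiplicative.toAdd (F n) = 0 := by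
        rw [← toAdd_pow, h]; rfl
      rcases smul_eq_zero.1 h2 with h3 | h3
      · exact hfi q hq h3
      · exact hF (Multiplicative.toAdd.injective h3)
    · rw [Subgroup.coe_pow]
      exact Subgroup.pow_index_mem (c q) (n : G)
  set C : Subgroup G := ⁅c q, c q⁆ with hCdef
  have hCn : C.Normal := Subgroup.commutator_normal _ _
  set M := C.index with hM
  have hM0 : M ≠ 0 := hAB q hq
  set e : ℕ := (Multiplicative.toAdd (F n)).natAbs with he
  have he0 : e ≠ 0 := by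
    intro h
    exact hF (Multiplicative.toAdd.injective (Int.natAbs_eq_zero.1 h))
  set r : ℕ := e * (M + 1) with hr
  have hr0 : r ≠ 0 := Nat.mul_ne_zero he0 (Nat.succ_ne_zero _)
  have : NeZero r := ⟨hr0⟩
  let P : N →* Multiplicative (ZMod r) :=
    (AddMonoidHom.toMultiplicative (Int.castAddHom (ZMod r))).comp F
  let K : Subgroup G := P.ker.map N.subtype
  have hKN : K ≤ N := by
    rintro _ ⟨x, _, rfl⟩
    exact x.2
  have hKH : K ≤ H := hKN.trans hN
  have hKmem : ∀ x : N, (x : G) ∈ K ↔ (r : ℤ) ∣ Multiplicative.toAdd (F x) := by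
    intro x
    have h1 : (x : G) ∈ K ↔ x ∈ P.ker := by
      constructor
      · rintro ⟨y, hy, hyx⟩
        rwa [← Subtype.ext hyx]
      · intro h
        exact ⟨x, h, rfl⟩
    rw [h1, MonoidHom.mem_ker, ← ZMod.intCast_zmod_eq_zero_iff_dvd]
    exact Iff.rfl
  have hKi : K.relIndex H ≠ 0 := by
    rw [← Subgroup.relIndex_mul_relIndex K N H hKN hN]
    apply mul_ne_zero _ hNi
    have h1 : K.subgroupOf N = P.ker := by
      ext x
      rw [Subgroup.mem_subgroupOf]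
      constructor
      · rintro ⟨y, hy, hyx⟩
        rwa [← Subtype.ext hyx]
      · intro h
        exact ⟨x, h, rfl⟩
    unfold Subgroup.relIndex
    rw [h1, Subgroup.index_ker]
    exact Nat.card_pos.ne'
  obtain ⟨m₂, hm₂, hmK⟩ := hC K hKH hKi
  set m := q * m₂ with hm
  have hm0 : m ≠ 0 := Nat.mul_ne_zero hq hm₂
  have hmq : c m ≤ c q := hmono q m ⟨m₂, rfl⟩
  have hmm : c m ≤ c m₂ := hmono m₂ m ⟨q, mul_comm _ _⟩
  have hnm := hn m
  have hstep : C ≤ K ⊔ c m := by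
    rw [hCdef, Subgroup.commutator_le]
    intro x hx y hy
    obtain ⟨a, ha, hxa⟩ := hP m hm0 x
    obtain ⟨b, hb, hyb⟩ := hP m hm0 y
    have haN : a ∈ N := by
      apply hqN
      refine ⟨ha, ?_⟩
      have h1 := (c q).mul_mem hx (hmq hxa)
      rwa [mul_inv_cancel_left] at h1
    have hbN : b ∈ N := by
      apply hqN
      refine ⟨hb, ?_⟩
      have h1 := (c q).mul_mem hy (hmq hyb)
      rwa [mul_inv_cancel_left] at h1
    have hK1 : ⁅a, b⁆ ∈ K := by
      have h1 := (hKmem ⁅(⟨a, haN⟩ : N), (⟨b, hbN⟩ : N)⁆).2 (by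
        rw [map_commutatorElement, commutatorElement_eq_one_iff_mul_comm.2 (mul_comm _ _)]
        exact dvd_zero _)
      exact h1
    have h2 : ⁅x, y⁆⁻¹ * ⁅a, b⁆ ∈ c m := by
      rw [← QuotientGroup.eq]
      have e1 : (QuotientGroup.mk' (c m)) x = (QuotientGroup.mk' (c m)) a := QuotientGroup.eq.2 hxa
      have e2 : (QuotientGroup.mk' (c m)) y = (QuotientGroup.mk' (c m)) b := QuotientGroup.eq.2 hyb
      change (QuotientGroup.mk' (c m)) ⁅x, y⁆ = (QuotientGroup.mk' (c m)) ⁅a, b⁆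
      rw [map_commutatorElement, map_commutatorElement, e1, e2]
    have h3 : ⁅x, y⁆ = ⁅a, b⁆ * (⁅x, y⁆⁻¹ * ⁅a, b⁆)⁻¹ := by group
    rw [h3]
    exact Subgroup.mul_mem_sup hK1 ((c m).inv_mem h2)
  have hpow : (n : G) ^ M ∈ K ⊔ c m := hstep (Subgroup.pow_index_mem C (n : G))
  obtain ⟨h, hh, y, hy, hhy⟩ := Subgroup.mem_sup_of_normal_right.1 hpow
  have hyK : y ∈ K := by
    apply hmK
    refine ⟨?_, hmm hy⟩
    have h1 : y = h⁻¹ * (n : G) ^ M := by rw [← hhy]; group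
    rw [h1]
    exact H.mul_mem (H.inv_mem (hKH hh)) (H.pow_mem (hN n.2) M)
  have hnM : ((n ^ M : N) : G) ∈ K := by
    rw [Subgroup.coe_pow, ← hhy]
    exact K.mul_mem hh hyK
  rw [hKmem, map_pow, toAdd_pow] at hnM
  have h5 : (r : ℤ) ∣ (M : ℤ) * Multiplicative.toAdd (F n) := by
    rwa [nsmul_eq_mul] at hnM
  have h6 : r ∣ M * e := by
    have := Int.natAbs_dvd_natAbs.2 h5
    rwa [Int.natAbs_natCast, Int.natAbs_mul, Int.natAbs_natCast] at this
  rw [hr, mul_comm e] at h6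
  have h7 : M + 1 ∣ M := Nat.dvd_of_mul_dvd_mul_right (Nat.pos_of_ne_zero he0) h6
  have := Nat.le_of_dvd (Nat.pos_of_ne_zero hM0) h7
  omega

theorem HOM_int (N : Type) [Group N] (hFG : Group.FG N) (f : N → ℚ)
    (hf : ∀ a b, f (a * b) = f a + f b) :
    ∃ (d : ℕ) (F : N →* Multiplicative ℤ), d ≠ 0 ∧ ∀ n, (d : ℚ) * f n = (Multiplicative.toAdd (F n) : ℤ) := by
  classical
  obtain ⟨S, hS⟩ := hFG.out
  have h1 : f 1 = 0 := by have := hf 1 1; rw [mul_one] at this; linarith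
  have hinv : ∀ a, f a⁻¹ = - f a := by
    intro a
    have := hf a a⁻¹
    rw [mul_inv_cancel, h1] at this
    linarith
  let d : ℕ := ∏ s ∈ S, (f s).den
  have hd : d ≠ 0 := Finset.prod_ne_zero_iff.2 fun s _ => (f s).den_ne_zero
  have key : ∀ n : N, ∃ z : ℤ, (d : ℚ) * f n = z := by
    intro n
    have hn : n ∈ Subgroup.closure (S : Set N) := by rw [hS]; exact Subgroup.mem_top n
    induction hn using Subgroup.closure_induction with
    | mem s hs =>
      obtain ⟨e, he⟩ : (f s).den ∣ d := Finset.dvd_prod_of_mem (fun s => (f s).den) hs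
      refine ⟨e * (f s).num, ?_⟩
      rw [he]
      push_cast
      have := Rat.mul_den_eq_num (f s)
      calc ((f s).den : ℚ) * e * f s = e * (f s * (f s).den) := by ring
        _ = e * (f s).num := by rw [this]
    | one => exact ⟨0, by rw [h1]; simp⟩
    | mul a b _ _ iha ihb =>
      obtain ⟨x, hx⟩ := iha
      obtain ⟨y, hy⟩ := ihb
      exact ⟨x + y, by rw [hf, mul_add, hx, hy]; push_cast; rfl⟩
    | inv a _ iha =>
      obtain ⟨x, hx⟩ := iha
      exact ⟨-x, by rw [hinv, mul_neg, hx]; push_cast; rfl⟩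
  choose z hz using key
  refine ⟨d, MonoidHom.mk' (fun n => Multiplicative.ofAdd (z n)) ?_, hd, fun n => hz n⟩
  intro a b
  rw [← ofAdd_add]
  congr 1
  have : ((z (a * b) : ℤ) : ℚ) = ((z a + z b : ℤ) : ℚ) := by
    rw [← hz, hf, mul_add, hz, hz]; push_cast; rfl
  exact_mod_cast this

theorem HOM_mono (m m' : ℕ) (h : m ∣ m') : Cong (Fin 3) m' ≤ Cong (Fin 3) m := by
  intro γ hγ
  obtain ⟨e, rfl⟩ := h
  obtain ⟨B, hB⟩ := mem_Cong.1 hγ
  refine mem_Cong.2 ⟨(e : ℤ) • B, ?_⟩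
  rw [hB, smul_smul]
  push_cast
  rfl

theorem HOM (hABF : ABF_stmt) : HOM_stmt := by
  intro H hFG hP hC N hN hNi f hf a ha
  have hFGN : Group.FG (N.subgroupOf H) := by
    have : (N.subgroupOf H).FiniteIndex := ⟨hNi⟩
    exact Subgroup.fg_of_index_ne_zero (N.subgroupOf H)
  have hFG' : Group.FG N := by
    have e := Subgroup.subgroupOfEquivOfLe hN
    exact Group.fg_of_surjective (f := e.toMonoidHom) e.surjective
  obtain ⟨d, F, hd, hF⟩ := HOM_int N hFG' (fun n => f n) (fun x y => hf x x.2 y y.2)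
  have h1 := HOM_abs (SLZ 3) (fun m => Cong (Fin 3) m)
    (fun m => by change (Matrix.SpecialLinearGroup.map (n := Fin 3) (Int.castRingHom (ZMod m))).ker.Normal; infer_instance)
    (fun m hm => by
      have : NeZero m := ⟨hm⟩
      change (Matrix.SpecialLinearGroup.map (n := Fin 3) (Int.castRingHom (ZMod m))).ker.index ≠ 0
      rw [Subgroup.index_ker]
      exact Nat.card_pos.ne')
    HOM_mono (fun q hq => (hABF q hq).index_ne_zero) H hP hC N hN hNi F ⟨a, ha⟩
  have h2 := hF ⟨a, ha⟩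
  rw [h1] at h2
  have h3 : (d : ℚ) * f a = 0 := by
    rw [h2]; rfl
  rcases mul_eq_zero.1 h3 with h4 | h4
  · exact absurd (Nat.cast_eq_zero.1 h4) hd
  · exact h4

end Pool.Agent.FO
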