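import Pool.Agent.helper35.FO.Spec

/-!
# Project fo, row FCT
-/

set_option autoImplicit false

namespace Pool.Agent.FO

open Matrix Pool.Agent.H48SL Pool.Agent.UG Pool.Agent.LV

theorem FCT_fix (G X : Type) [Group G] [MulAction G X] [Finite X] (p : ℕ) (hp : p.Prime)
    (h : ∀ g : G, ∃ k : ℕ, ∀ x : X, g ^ (p ^ k) • x = x) (hn : ∀ x : X, ∃ g : G, g • x ≠ x) :
    p ∣ Nat.card X := by
  have : Fact p.Prime := ⟨hp⟩
  have hP : IsPGroup p (MulAction.toPermHom G X).range := by
    rintro ⟨σ, ⟨g, rfl⟩⟩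
    obtain ⟨k, hk⟩ := h g
    refine ⟨k, ?_⟩
    apply Subtype.ext
    change (MulAction.toPermHom G X g) ^ (p ^ k) = 1
    rw [← map_pow]
    ext x
    exact hk x
  have h1 := hP.card_modEq_card_fixedPoints X
  have h0 : Nat.card (MulAction.fixedPoints (MulAction.toPermHom G X).range X) = 0 := by
    rw [Nat.card_eq_zero]; left
    constructor
    rintro ⟨x, hx⟩
    obtain ⟨g, hg⟩ := hn x
    exact hg (hx ⟨MulAction.toPermHom G X g, ⟨g, rfl⟩⟩)
  rw [h0] at h1
  exact (Nat.modEq_zero_iff_dvd).1 h1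

theorem FCT_card (E V W : Type) [Finite E] [Finite V] [Finite W] (S : E → V) (T : E → W)
    (hS : Function.Surjective S) (hT : Function.Surjective T) (hE : Nonempty E)
    (h1 : ∀ γ : E → ℚ, ∃ (α : V → ℚ) (β : W → ℚ), ∀ e, γ e = α (S e) - β (T e))
    (h2 : ∀ (α : V → ℚ) (β : W → ℚ), (∀ e, α (S e) = β (T e)) → ∀ e e' : E, α (S e) = α (S e')) :
    Nat.card V + Nat.card W = Nat.card E + 1 := by
  classical
  have := Fintype.ofFinite E
  have := Fintype.ofFinite V
  have := Fintype.ofFinite W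
  let L : ((V → ℚ) × (W → ℚ)) →ₗ[ℚ] (E → ℚ) :=
    { toFun := fun q e => q.1 (S e) - q.2 (T e)
      map_add' := by intro a b; funext e; simp; ring
      map_smul' := by intro c a; funext e; simp; ring }
  have hr : LinearMap.range L = ⊤ := by
    rw [LinearMap.range_eq_top]
    intro γ
    obtain ⟨α, β, h⟩ := h1 γ
    exact ⟨(α, β), funext fun e => (h e).symm⟩
  have hk : LinearMap.ker L = Submodule.span ℚ {((fun _ => 1, fun _ => 1) : (V → ℚ) × (W → ℚ))} := by
    apply le_antisymm
    · rintro ⟨α, β⟩ hab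
      have hab' : ∀ e, α (S e) = β (T e) := by
        intro e
        have := congrFun (LinearMap.mem_ker.1 hab) e
        exact sub_eq_zero.1 this
      have hc := h2 α β hab'
      obtain ⟨e0⟩ := hE
      rw [Submodule.mem_span_singleton]
      refine ⟨α (S e0), ?_⟩
      apply Prod.ext
      · funext v
        obtain ⟨e, rfl⟩ := hS v
        simp [hc e0 e]
      · funext w
        obtain ⟨e, rfl⟩ := hT w
        simp [← hab' e, hc e0 e]
    · rw [Submodule.span_le]
      rintro _ rfl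
      change L _ = 0
      funext e
      simp [L]
  have hne : ((fun _ => 1, fun _ => 1) : (V → ℚ) × (W → ℚ)) ≠ 0 := by
    intro h
    obtain ⟨e0⟩ := hE
    have := congrFun (congrArg Prod.fst h) (S e0)
    simp at this
  have hd := LinearMap.finrank_range_add_finrank_ker L
  rw [hr, hk, finrank_span_singleton hne, finrank_top, Module.finrank_prod,
    Module.finrank_fintype_fun_eq_card, Module.finrank_fintype_fun_eq_card,
    Module.finrank_fintype_fun_eq_card] at hd
  simp only [Nat.card_eq_fintype_card]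
  omega

theorem FCT : FCT_stmt := by
  intro G E V W _ _ _ _ _ _ _ S T hS hT hgS hgT hE p hp hg h1 h2
  by_contra hcon
  push Not at hcon
  obtain ⟨hV, hW⟩ := hcon
  have hEn : ∀ x : E, ∃ g : G, g • x ≠ x := by
    intro e
    obtain ⟨g, hg⟩ := hV (S e)
    refine ⟨g, fun h => hg ?_⟩
    rw [← hgS, h]
  have dV := FCT_fix G V p hp (fun g => by obtain ⟨k, a, b, c⟩ := hg g; exact ⟨k, b⟩) hV
  have dW := FCT_fix G W p hp (fun g => by obtain ⟨k, a, b, c⟩ := hg g; exact ⟨k, c⟩) hW
  have dE := FCT_fix G E p hp (fun g => by obtain ⟨k, a, b, c⟩ := hg g; exact ⟨k, a⟩) hEn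
  have hc := FCT_card E V W S T hS hT hE h1 h2
  have h3 : p ∣ Nat.card E + 1 := by rw [← hc]; exact Nat.dvd_add dV dW
  have h4 : p ∣ 1 := (Nat.dvd_add_right dE).1 h3
  exact hp.one_lt.ne' (Nat.dvd_one.1 h4)

end Pool.Agent.FO
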