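import Pool.Agent.helper35.FO.Spec

/-!
# Project fo, row ABF
-/

set_option autoImplicit false

namespace Pool.Agent.FO

open Matrix Pool.Agent.H48SL Pool.Agent.UG Pool.Agent.LV

open scoped commutatorElement

theorem ABF_prim (v0 : Fin 3 → ℤ) (h : v0 ≠ 0) :
    ∃ (d : ℤ) (v x : Fin 3 → ℤ), d ≠ 0 ∧ v0 = d • v ∧ x ⬝ᵥ v = 1 := by
  obtain ⟨d, hd⟩ := (IsPrincipalIdealRing.principal (Ideal.span (Set.range v0))).principal
  have h1 : ∀ i, ∃ c, v0 i = d * c := fun i => by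
    have h2 : v0 i ∈ Ideal.span (Set.range v0) := Ideal.subset_span ⟨i, rfl⟩
    rw [hd] at h2
    obtain ⟨c, hc⟩ := Submodule.mem_span_singleton.1 h2
    exact ⟨c, by rw [← hc, smul_eq_mul, mul_comm]⟩
  choose v hv using h1
  have h2 : d ∈ Submodule.span ℤ (Set.range v0) := by
    change d ∈ Ideal.span (Set.range v0)
    rw [hd]; exact Submodule.mem_span_singleton_self d
  obtain ⟨x, hx⟩ := (Submodule.mem_span_range_iff_exists_fun ℤ).1 h2
  have hd0 : d ≠ 0 := by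
    rintro rfl
    exact h (funext fun i => by rw [hv i]; simp)
  refine ⟨d, v, x, hd0, funext hv, ?_⟩
  apply mul_left_cancel₀ hd0
  rw [mul_one]
  calc d * (x ⬝ᵥ v) = ∑ i, x i • v0 i := by
        simp only [dotProduct, Finset.mul_sum, smul_eq_mul, hv]
        exact Finset.sum_congr rfl (fun i _ => by ring)
    _ = d := hx

/-- the transvections `1 + q² c E_0j` -/
theorem ABF_e0 (q : ℕ) (j : Fin 3) (hj : j ≠ 0) (c : ℤ) :
    tv (Pi.single 0 1 : Fin 3 → ℤ) (Pi.single j (((q : ℤ) ^ 2) * c)) ∈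
      (⁅Cong (Fin 3) q, Cong (Fin 3) q⁆ : Subgroup (SLZ 3)) := by
  obtain ⟨k, hk0, hkj⟩ : ∃ k : Fin 3, k ≠ 0 ∧ k ≠ j := by
    revert j; decide
  have h1 : (Pi.single k (q : ℤ) : Fin 3 → ℤ) ⬝ᵥ (Pi.single 0 1) = 0 := single_dot hk0.symm _
  have h2 : (Pi.single j ((q : ℤ) * c) : Fin 3 → ℤ) ⬝ᵥ (Pi.single k 1) = 0 := single_dot hkj _
  have h3 : (Pi.single j ((q : ℤ) * c) : Fin 3 → ℤ) ⬝ᵥ (Pi.single 0 1) = 0 := single_dot hj.symm _
  have hc := tv_commutator h1 h2 h3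
  have e1 : ((Pi.single k (q : ℤ) : Fin 3 → ℤ) ⬝ᵥ (Pi.single k 1)) • (Pi.single j ((q : ℤ) * c) : Fin 3 → ℤ)
      = Pi.single j (((q : ℤ) ^ 2) * c) := by
    rw [single_dotProduct, Pi.single_eq_same, mul_one, ← Pi.single_smul, smul_eq_mul]
    congr 1
    ring
  rw [e1] at hc
  rw [← hc]
  apply Subgroup.commutator_mem_commutator
  · apply NQ_le_Cong q
    have e2 : (Pi.single k (q : ℤ) : Fin 3 → ℤ) = (q : ℤ) • Pi.single k 1 := by
      rw [← Pi.single_smul, smul_eq_mul, mul_one]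
    rw [e2]
    exact tv_mem_NQ _ (single_dot hk0.symm 1)
  · apply NQ_le_Cong q
    have e2 : (Pi.single j ((q : ℤ) * c) : Fin 3 → ℤ) = (q : ℤ) • Pi.single j c := by
      rw [← Pi.single_smul, smul_eq_mul]
    rw [e2]
    exact tv_mem_NQ _ (single_dot hkj c)

theorem ABF : ABF_stmt := by
  intro q hq
  set C : Subgroup (SLZ 3) := ⁅Cong (Fin 3) q, Cong (Fin 3) q⁆ with hC
  have hCo : (Cong (Fin 3) q).Normal := by
    change (Matrix.SpecialLinearGroup.map (n := Fin 3) (Int.castRingHom (ZMod q))).ker.Normal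
    infer_instance
  have hCn : C.Normal := Subgroup.commutator_normal _ _
  have hle : NQ (Fin 3) ((q ^ 2 : ℕ) : ℤ) ≤ C := by
    unfold NQ
    rw [Subgroup.closure_le]
    rintro _ ⟨x, φ, hφ, rfl⟩
    by_cases hx : x = 0
    · subst hx
      rw [tv_zero_left]
      exact C.one_mem
    obtain ⟨d, v, y, hd, rfl, hy⟩ := ABF_prim x hx
    have hφ' : φ ⬝ᵥ v = 0 := by
      rw [dotProduct_smul] at hφ
      exact (smul_eq_zero.1 hφ).resolve_left hd
    have hprim : ∀ d : ℤ, (∀ i ∈ (Finset.univ : Finset (Fin 3)), d ∣ v i) → IsUnit d := by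
      intro e he
      have h1 : e ∣ y ⬝ᵥ v := by
        unfold dotProduct
        exact Finset.dvd_sum fun i _ => (he i (Finset.mem_univ i)).mul_left _
      rw [hy] at h1
      exact isUnit_of_dvd_one h1
    obtain ⟨g, -, hg⟩ := euclid (Finset.univ : Finset (Fin 3)) 0 (Finset.mem_univ _) (by simp) _ v rfl hprim
    have hgv : (g : Matrix (Fin 3) (Fin 3) ℤ) *ᵥ v = Pi.single 0 1 := by
      funext i
      rw [hg i (Finset.mem_univ i), Pi.single_apply]
    rw [tv_smul_comm (by rw [smul_dotProduct, hφ', smul_zero])]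
    set χ : Fin 3 → ℤ := φ ᵥ* ((g⁻¹ : SLZ 3) : Matrix (Fin 3) (Fin 3) ℤ) with hχ
    have hχ0 : χ 0 = 0 := by
      have h1 : χ ⬝ᵥ ((g : Matrix (Fin 3) (Fin 3) ℤ) *ᵥ v) = 0 := by
        rw [hχ, vecMul_inv_dot, hφ']
      rw [hgv, dotProduct_single, mul_one] at h1
      exact h1
    have hconj : g * tv v (d • ((q ^ 2 : ℕ) : ℤ) • φ) * g⁻¹ = tv (Pi.single 0 1) (((q : ℤ) ^ 2) • d • χ) := by
      rw [tv_conj (by rw [smul_dotProduct, smul_dotProduct, hφ', smul_zero, smul_zero]), hgv,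
        smul_vecMul, smul_vecMul, ← hχ]
      congr 1
      rw [smul_comm]
      push_cast
      rfl
    have hmem : tv (Pi.single 0 1 : Fin 3 → ℤ) (((q : ℤ) ^ 2) • d • χ) ∈ C := by
      apply tv_right_mem
      · intro i
        by_cases hi : i = 0
        · subst hi
          simp [hχ0]
        · rw [Pi.single_eq_of_ne hi, mul_zero]
      · intro i
        by_cases hi : i = 0
        · subst hi
          have e0 : (((q : ℤ) ^ 2) • d • χ) 0 = 0 := by simp [hχ0]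
          rw [e0, Pi.single_zero, tv_zero_right]
          exact C.one_mem
        · exact ABF_e0 q i hi (d * χ i)
    rw [← hconj] at hmem
    have h2 := hCn.conj_mem _ hmem g⁻¹
    have h3 : g⁻¹ * (g * tv v (d • ((q ^ 2 : ℕ) : ℤ) • φ) * g⁻¹) * g⁻¹⁻¹ = tv v (d • ((q ^ 2 : ℕ) : ℤ) • φ) := by
      group
    rw [h3] at h2
    exact h2
  have hfin := NQ_finiteIndex (ι := Fin 3) (q ^ 2) (pow_ne_zero 2 hq) (by simp)
  exact Subgroup.finiteIndex_of_le hle

end Pool.Agent.FO
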