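import Pool.Agent.helper35.FO.Spec

/-!
# Project fo, row REG
-/

set_option autoImplicit false

namespace Pool.Agent.FO

open Matrix Pool.Agent.H48SL Pool.Agent.UG Pool.Agent.LV

theorem REG_prim (v0 : Fin 3 → ℤ) (h : v0 ≠ 0) :
    ∃ (d : ℤ) (v x : Fin 3 → ℤ), d ≠ 0 ∧ v0 = d • v ∧ x ⬝ᵥ v = 1 := by
  obtain ⟨d, hd⟩ := (IsPrincipalIdealRing.principal (Ideal.span (Set.range v0))).principal
  have h1 : ∀ i, ∃ c, v0 i = d * c := fun i => by
    have h2 : v0 i ∈ Ideal.span (Set.range v0) := Ideal.subset_span ⟨i, rfl⟩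
    rw [hd] at h2
    obtain ⟨c, hc⟩ := Submodule.mem_span_singleton.1 h2
    exact ⟨c, by rw [← hc, smul_eq_mul, mul_comm]⟩
  choose v hv using h1
  have h2 : d ∈ Submodule.span ℤ (Set.range v0) := by
    change d ∈ Ideal.span (Set.range v0)
    rw [hd]; exact Submodule.mem_span_singleton_self d
  obtain ⟨x, hx⟩ := (Submodule.mem_span_range_iff_exists_fun ℤ).1 h2
  have hd0 : d ≠ 0 := by
    rintro rfl
    exact h (funext fun i => by rw [hv i]; simp)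
  refine ⟨d, v, x, hd0, funext hv, ?_⟩
  apply mul_left_cancel₀ hd0
  rw [mul_one]
  calc d * (x ⬝ᵥ v) = ∑ i, x i • v0 i := by
        simp only [dotProduct, Finset.mul_sum, smul_eq_mul, hv]
        exact Finset.sum_congr rfl (fun i _ => by ring)
    _ = d := hx

theorem REG_A (N : Matrix (Fin 3) (Fin 3) ℤ) (h3 : N ^ 3 = 0) (h2 : N ^ 2 ≠ 0) :
    ∃ (v x z : Fin 3 → ℤ) (d : ℤ), d ≠ 0 ∧ x ⬝ᵥ v = 1 ∧ (N ^ 2) *ᵥ z = d • v ∧
      ∀ w, N *ᵥ w = 0 ↔ ∃ a : ℤ, w = a • v := by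
  have hz : ∃ z : Fin 3 → ℤ, (N ^ 2) *ᵥ z ≠ 0 := by
    by_contra hc
    push Not at hc
    apply h2
    ext i j
    have := congrFun (hc (Pi.single j 1)) i
    rw [Matrix.mulVec_single_one] at this
    exact this
  obtain ⟨z, hz⟩ := hz
  obtain ⟨d, v, x, hd, hv, hx⟩ := REG_prim _ hz
  have hNN : ∀ w : Fin 3 → ℤ, N *ᵥ (N *ᵥ w) = (N ^ 2) *ᵥ w := fun w => by
    rw [Matrix.mulVec_mulVec, pow_two]
  have hNNN : ∀ w : Fin 3 → ℤ, N *ᵥ ((N ^ 2) *ᵥ w) = 0 := fun w => by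
    rw [Matrix.mulVec_mulVec, ← pow_succ', h3, Matrix.zero_mulVec]
  have hNv : N *ᵥ v = 0 := by
    have h := hNNN z
    rw [hv, Matrix.mulVec_smul] at h
    exact (smul_eq_zero.1 h).resolve_left hd
  refine ⟨v, x, z, d, hd, hx, hv, fun w => ⟨fun hw => ?_, ?_⟩⟩
  · -- the matrix of the cyclic basis
    let P : Matrix (Fin 3) (Fin 3) ℤ := Matrix.of fun i j => (![z, N *ᵥ z, (N ^ 2) *ᵥ z] j) i
    have hP : ∀ c : Fin 3 → ℤ, P *ᵥ c = c 0 • z + c 1 • (N *ᵥ z) + c 2 • ((N ^ 2) *ᵥ z) := by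
      intro c
      funext i
      change ∑ j, (![z, N *ᵥ z, (N ^ 2) *ᵥ z] j) i * c j = _
      rw [Fin.sum_univ_three]
      change z i * c 0 + (N *ᵥ z) i * c 1 + ((N ^ 2) *ᵥ z) i * c 2 =
        c 0 * z i + c 1 * (N *ᵥ z) i + c 2 * ((N ^ 2) *ᵥ z) i
      ring
    have key : ∀ c : Fin 3 → ℤ, N *ᵥ (P *ᵥ c) = 0 → c 0 = 0 ∧ c 1 = 0 := by
      intro c hc
      rw [hP] at hc
      simp only [Matrix.mulVec_add, Matrix.mulVec_smul, hNN, hNNN, smul_zero, add_zero] at hc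
      have hc2 := congrArg (fun t => N *ᵥ t) hc
      simp only [Matrix.mulVec_add, Matrix.mulVec_smul, hNN, hNNN, smul_zero, add_zero,
        Matrix.mulVec_zero] at hc2
      have c0 : c 0 = 0 := (smul_eq_zero.1 hc2).resolve_right hz
      rw [c0, zero_smul, zero_add] at hc
      exact ⟨c0, (smul_eq_zero.1 hc).resolve_right hz⟩
    have hdet : P.det ≠ 0 := by
      intro h0
      obtain ⟨c, hc0, hc⟩ := Matrix.exists_mulVec_eq_zero_iff.2 h0
      have h01 := key c (by rw [hc, Matrix.mulVec_zero])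
      rw [hP, h01.1, h01.2, zero_smul, zero_smul, zero_add, zero_add] at hc
      have h2 := (smul_eq_zero.1 hc).resolve_right hz
      apply hc0
      funext i
      fin_cases i
      · exact h01.1
      · exact h01.2
      · exact h2
    have hw2 : P *ᵥ (P.adjugate *ᵥ w) = P.det • w := by
      rw [Matrix.mulVec_mulVec, Matrix.mul_adjugate, Matrix.smul_mulVec, Matrix.one_mulVec]
    have h01 := key (P.adjugate *ᵥ w) (by rw [hw2, Matrix.mulVec_smul, hw, smul_zero])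
    rw [hP, h01.1, h01.2, zero_smul, zero_smul, zero_add, zero_add, hv, smul_smul] at hw2
    refine ⟨x ⬝ᵥ w, ?_⟩
    have h5 := congrArg (fun t => x ⬝ᵥ t) hw2
    simp only [dotProduct_smul, hx, smul_eq_mul, mul_one] at h5
    rw [h5, mul_smul] at hw2
    have := smul_right_injective (Fin 3 → ℤ) hdet hw2
    exact this.symm
  · rintro ⟨a, rfl⟩
    rw [Matrix.mulVec_smul, hNv, smul_zero]

theorem REG : REG_stmt := by
  intro u hu
  obtain ⟨h3, h2⟩ := hu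
  obtain ⟨v, x, z, d, hd, hx, hz, hV⟩ := REG_A _ h3 h2
  have h3' : (((u : Matrix (Fin 3) (Fin 3) ℤ) - 1)ᵀ) ^ 3 = 0 := by
    rw [← Matrix.transpose_pow, h3, Matrix.transpose_zero]
  have h2' : (((u : Matrix (Fin 3) (Fin 3) ℤ) - 1)ᵀ) ^ 2 ≠ 0 := by
    rw [← Matrix.transpose_pow]
    intro h
    exact h2 (by simpa using congrArg Matrix.transpose h)
  obtain ⟨f, y, z', d', hd', hy, hz', hR⟩ := REG_A _ h3' h2'
  refine ⟨v, f, x, y, hx, hy, ?_, ?_, ?_⟩
  · have hf : f ᵥ* ((u : Matrix (Fin 3) (Fin 3) ℤ) - 1) = 0 := by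
      have := (hR f).2 ⟨1, (one_smul _ _).symm⟩
      rwa [Matrix.mulVec_transpose] at this
    have h5 : f ⬝ᵥ ((((u : Matrix (Fin 3) (Fin 3) ℤ) - 1) ^ 2) *ᵥ z) = 0 := by
      rw [Matrix.dotProduct_mulVec, pow_two, ← Matrix.vecMul_vecMul, hf, Matrix.zero_vecMul, zero_dotProduct]
    rw [hz, dotProduct_smul] at h5
    exact (smul_eq_zero.1 h5).resolve_left hd
  · intro w
    rw [← hV w, Matrix.sub_mulVec, Matrix.one_mulVec, sub_eq_zero]
    exact Iff.rfl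
  · intro g
    rw [← hR g, Matrix.mulVec_transpose, Matrix.vecMul_sub, Matrix.vecMul_one, sub_eq_zero]
    exact Iff.rfl

end Pool.Agent.FO
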